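import Mathlib

/-!
# Cutting an order into words

`cnt R As` is the number of ways to write the elements of `R` in a row and to cut this row into
words `W_1, ..., W_r, rest` such that the word `W_i` avoids the set `A_i`, for `As = [A_1, .., A_r]`.
-/

open Finset

namespace Pool.Agent.Lib.MP_56e41f_co.ES

variable {V : Type*} [DecidableEq V]

/-- number of ways to cut an order of `R` into words avoiding the members of the list, and a rest -/
def cnt : Finset V → List (Finset V) → ℕ
  | R, [] => R.card.factorial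
  | R, A :: As => cnt R As + ∑ u ∈ (R \ A).attach, cnt (R.erase u.1) (A :: As)
termination_by R As => R.card + As.length
decreasing_by
  · simp
  · have h : u.1 ∈ R := (Finset.mem_sdiff.mp u.2).1
    have := Finset.card_erase_lt_of_mem h
    simp only [List.length_cons]
    omega

theorem cnt_nil (R : Finset V) : cnt R [] = R.card.factorial := by
  rw [cnt]

theorem cnt_cons (R A : Finset V) (As : List (Finset V)) :
    cnt R (A :: As) = cnt R As + ∑ u ∈ R \ A, cnt (R.erase u) (A :: As) := by
  rw [cnt, Finset.sum_attach (R \ A) (fun u => cnt (R.erase u) (A :: As))]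

/-- two neighbours of the list can be exchanged -/
theorem cnt_swap (A B : Finset V) (As : List (Finset V)) :
    ∀ (n : ℕ) (R : Finset V), R.card ≤ n → cnt R (A :: B :: As) = cnt R (B :: A :: As) := by
  intro n
  induction n with
  | zero =>
    intro R hR
    have h0 : R = ∅ := Finset.card_eq_zero.mp (Nat.le_zero.mp hR)
    subst h0
    rw [cnt_cons, cnt_cons, cnt_cons, cnt_cons]
    simp
  | succ n ih =>
    intro R hR
    have hc : ∀ u ∈ R, (R.erase u).card ≤ n := by
      intro u hu
      have := Finset.card_erase_lt_of_mem hu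
      omega
    have hd : ∀ u ∈ R, ∀ w ∈ R.erase u, ((R.erase u).erase w).card ≤ n := by
      intro u hu w hw
      have := Finset.card_erase_lt_of_mem hw
      have := hc u hu
      omega
    have e1 : ∑ u ∈ R \ A, cnt (R.erase u) (A :: B :: As) = ∑ u ∈ R \ A, cnt (R.erase u) (A :: As)
        + ∑ u ∈ R \ A, ∑ w ∈ (R.erase u) \ B, cnt ((R.erase u).erase w) (A :: B :: As) := by
      rw [← Finset.sum_add_distrib]
      refine Finset.sum_congr rfl (fun u hu => ?_)
      have hu' : u ∈ R := (Finset.mem_sdiff.mp hu).1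
      rw [ih (R.erase u) (hc u hu'), cnt_cons (R.erase u) B (A :: As)]
      congr 1
      refine Finset.sum_congr rfl (fun w hw => ?_)
      rw [ih _ (hd u hu' w (Finset.mem_sdiff.mp hw).1)]
    have e2 : ∑ u ∈ R \ B, cnt (R.erase u) (B :: A :: As) = ∑ u ∈ R \ B, cnt (R.erase u) (B :: As)
        + ∑ u ∈ R \ B, ∑ w ∈ (R.erase u) \ A, cnt ((R.erase u).erase w) (A :: B :: As) := by
      rw [← Finset.sum_add_distrib]
      refine Finset.sum_congr rfl (fun u hu => ?_)
      have hu' : u ∈ R := (Finset.mem_sdiff.mp hu).1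
      rw [← ih (R.erase u) (hc u hu'), cnt_cons (R.erase u) A (B :: As)]
    have e3 : ∑ u ∈ R \ A, ∑ w ∈ (R.erase u) \ B, cnt ((R.erase u).erase w) (A :: B :: As)
        = ∑ w ∈ R \ B, ∑ u ∈ (R.erase w) \ A, cnt ((R.erase w).erase u) (A :: B :: As) := by
      rw [Finset.sum_comm' (t' := R \ B) (s' := fun w => (R.erase w) \ A)]
      · refine Finset.sum_congr rfl (fun w _ => Finset.sum_congr rfl (fun u _ => ?_))
        rw [Finset.erase_right_comm]
      · intro u w
        simp only [Finset.mem_sdiff, Finset.mem_erase, ne_eq]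
        constructor
        · rintro ⟨⟨h1, h2⟩, ⟨h3, h4⟩, h5⟩
          exact ⟨⟨⟨fun h => h3 h.symm, h1⟩, h2⟩, h4, h5⟩
        · rintro ⟨⟨⟨h1, h2⟩, h3⟩, h4, h5⟩
          exact ⟨⟨h2, h3⟩, ⟨fun h => h1 h.symm, h4⟩, h5⟩
    rw [cnt_cons R A, cnt_cons R B, e1, cnt_cons R B (A :: As), cnt_cons R A As, e2, e3]
    ring

theorem cnt_perm {l l' : List (Finset V)} (h : l.Perm l') : ∀ R : Finset V, cnt R l = cnt R l' := by
  induction h with
  | nil => intro R; rfl
  | @cons A l₁ l₂ _ ih =>
    intro R
    induction R using Finset.strongInduction with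
    | H R ihR =>
      rw [cnt_cons, cnt_cons, ih R]
      congr 1
      refine Finset.sum_congr rfl (fun u hu => ihR _ ?_)
      exact Finset.erase_ssubset (Finset.mem_sdiff.mp hu).1
  | swap A B l => intro R; exact cnt_swap B A l R.card R le_rfl
  | trans _ _ ih1 ih2 => intro R; rw [ih1 R, ih2 R]

/-- the same for a multiset -/
def cm (R : Finset V) (M : Multiset (Finset V)) : ℕ :=
  Quot.liftOn M (cnt R) (fun _ _ h => cnt_perm h R)

theorem cm_zero (R : Finset V) : cm R 0 = R.card.factorial := cnt_nil R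

theorem cm_cons (R A : Finset V) (M : Multiset (Finset V)) :
    cm R (A ::ₘ M) = cm R M + ∑ u ∈ R \ A, cm (R.erase u) (A ::ₘ M) := by
  induction M using Quotient.inductionOn with
  | h l => exact cnt_cons R A l

/-- the time balance of a search -/
theorem cm_split (R A : Finset V) (M : Multiset (Finset V)) :
    cm R (∅ ::ₘ M) = cm R (A ::ₘ M) + ∑ u ∈ R ∩ A, cm (R.erase u) (A ::ₘ ∅ ::ₘ M) := by
  have h1 := cm_cons R A (∅ ::ₘ M)
  have h2 := cm_cons R ∅ (A ::ₘ M)
  rw [Multiset.cons_swap ∅ A M] at h2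
  rw [Finset.sdiff_empty] at h2
  have h3 : ∑ u ∈ R, cm (R.erase u) (A ::ₘ ∅ ::ₘ M) =
      ∑ u ∈ R \ A, cm (R.erase u) (A ::ₘ ∅ ::ₘ M) + ∑ u ∈ R ∩ A, cm (R.erase u) (A ::ₘ ∅ ::ₘ M) := by
    rw [add_comm, Finset.sum_inter_add_sum_sdiff]
  omega

/-- one word -/
theorem cm_single (A : Finset V) : ∀ (n : ℕ) (R : Finset V), R.card ≤ n →
    ((R ∩ A).card + 1) * cm R {A} = (R.card + 1).factorial := by
  intro n
  induction n with
  | zero =>
    intro R hR
    have h0 : R = ∅ := Finset.card_eq_zero.mp (Nat.le_zero.mp hR)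
    subst h0
    have := cm_cons ∅ A 0
    rw [show (A ::ₘ (0 : Multiset (Finset V))) = {A} from rfl] at this
    rw [this, cm_zero]
    simp
  | succ n ih =>
    intro R hR
    have h := cm_cons R A 0
    rw [show (A ::ₘ (0 : Multiset (Finset V))) = {A} from rfl, cm_zero] at h
    have h2 : ((R ∩ A).card + 1) * ∑ u ∈ R \ A, cm (R.erase u) {A}
        = (R \ A).card * R.card.factorial := by
      rw [Finset.mul_sum, ← smul_eq_mul, ← Finset.sum_const]
      refine Finset.sum_congr rfl (fun u hu => ?_)
      have hu1 := (Finset.mem_sdiff.mp hu).1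
      have hu2 := (Finset.mem_sdiff.mp hu).2
      have hlt := Finset.card_erase_lt_of_mem hu1
      have := ih (R.erase u) (by omega)
      rw [Finset.card_erase_add_one hu1] at this
      rw [← this]
      congr 3
      ext x
      simp only [Finset.mem_inter, Finset.mem_erase, ne_eq]
      constructor
      · rintro ⟨h1, h2⟩
        exact ⟨⟨fun h => hu2 (h ▸ h2), h1⟩, h2⟩
      · rintro ⟨⟨_, h1⟩, h2⟩
        exact ⟨h1, h2⟩
    have h3 : (R ∩ A).card + (R \ A).card = R.card := Finset.card_inter_add_card_sdiff R A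
    rw [h, Nat.mul_add, h2, Nat.factorial_succ, ← h3]
    ring

theorem cm_single' (A R : Finset V) :
    ((R ∩ A).card + 1) * cm R {A} = (R.card + 1).factorial := cm_single A R.card R le_rfl

/-- a search does not create mass -/
theorem cm_search (A : Finset V) (M : Multiset (Finset V)) :
    ∀ R : Finset V, ∑ u ∈ R ∩ A, cm (R.erase u) (A ::ₘ M) ≤ cm R M := by
  induction M using Multiset.induction_on with
  | empty =>
    intro R
    rw [cm_zero, show (A ::ₘ (0 : Multiset (Finset V))) = {A} from rfl]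
    rcases Nat.eq_zero_or_pos (R ∩ A).card with h0 | h0
    · rw [Finset.card_eq_zero.mp h0]
      simp
    · refine Nat.le_of_mul_le_mul_left ?_ h0
      rw [Finset.mul_sum]
      calc ∑ u ∈ R ∩ A, (R ∩ A).card * cm (R.erase u) {A}
          = ∑ u ∈ R ∩ A, R.card.factorial := by
            refine Finset.sum_congr rfl (fun u hu => ?_)
            have hu1 := (Finset.mem_inter.mp hu).1
            have := cm_single' A (R.erase u)
            rw [Finset.card_erase_add_one hu1] at this
            rw [← this]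
            congr 1
            have h1 : R.erase u ∩ A = (R ∩ A).erase u := by
              rw [Finset.erase_inter]
            rw [h1, Finset.card_erase_add_one hu]
        _ = (R ∩ A).card * R.card.factorial := by
            rw [Finset.sum_const, smul_eq_mul]
        _ ≤ _ := le_rfl
  | cons B M ihM =>
    intro R
    induction R using Finset.strongInduction with
    | H R ihR =>
      have e1 : ∑ u ∈ R ∩ A, cm (R.erase u) (A ::ₘ B ::ₘ M) = ∑ u ∈ R ∩ A, cm (R.erase u) (A ::ₘ M)
          + ∑ u ∈ R ∩ A, ∑ w ∈ (R.erase u) \ B, cm ((R.erase u).erase w) (A ::ₘ B ::ₘ M) := by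
        rw [← Finset.sum_add_distrib]
        refine Finset.sum_congr rfl (fun u hu => ?_)
        rw [Multiset.cons_swap A B M, cm_cons (R.erase u) B (A ::ₘ M)]
      have e2 : ∑ u ∈ R ∩ A, ∑ w ∈ (R.erase u) \ B, cm ((R.erase u).erase w) (A ::ₘ B ::ₘ M)
          = ∑ w ∈ R \ B, ∑ u ∈ (R.erase w) ∩ A, cm ((R.erase w).erase u) (A ::ₘ B ::ₘ M) := by
        rw [Finset.sum_comm' (t' := R \ B) (s' := fun w => (R.erase w) ∩ A)]
        · refine Finset.sum_congr rfl (fun w _ => Finset.sum_congr rfl (fun u _ => ?_))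
          rw [Finset.erase_right_comm]
        · intro u w
          simp only [Finset.mem_sdiff, Finset.mem_inter, Finset.mem_erase, ne_eq]
          constructor
          · rintro ⟨⟨h1, h2⟩, ⟨h3, h4⟩, h5⟩
            exact ⟨⟨⟨fun h => h3 h.symm, h1⟩, h2⟩, h4, h5⟩
          · rintro ⟨⟨⟨h1, h2⟩, h3⟩, h4, h5⟩
            exact ⟨⟨h2, h3⟩, ⟨fun h => h1 h.symm, h4⟩, h5⟩
      rw [e1, e2, cm_cons R B M]
      refine Nat.add_le_add (ihM R) (Finset.sum_le_sum (fun w hw => ?_))
      exact ihR _ (Finset.erase_ssubset (Finset.mem_sdiff.mp hw).1)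

end Pool.Agent.Lib.MP_56e41f_co.ES
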