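import Pool.Agent.Lib.MP_56e41f_co.ES.Main

/-!
# The Erdős–Sós conjecture, in terms of Mathlib's `SimpleGraph`
-/

open Finset

namespace Pool.Agent.Lib.MP_56e41f_co.ES

open Classical in
/-- **The Erdős–Sós conjecture**, with the number of non-isolated vertices: a finite graph with
`n'` non-isolated vertices and more than `(t - 2) n' / 2` edges contains every tree with `t`
vertices. -/
theorem erdos_sos_support {V W : Type*} [Fintype V] [Fintype W] (G : SimpleGraph V)
    (T : SimpleGraph W) (hT : T.IsTree)
    (h : (Fintype.card W - 2) * G.support.ncard < 2 * G.edgeFinset.card) :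
    T.IsContained G := by
  have hsum : ∑ y : V, (nb G y).card = 2 * G.edgeFinset.card := by
    rw [← SimpleGraph.sum_degrees_eq_twice_card_edges]
    refine Finset.sum_congr rfl (fun y _ => ?_)
    rw [← SimpleGraph.card_neighborFinset_eq_degree]
    congr 1
    ext z
    rw [mem_nb, SimpleGraph.mem_neighborFinset]
  have hni : ni G = G.support.ncard := by
    unfold ni
    rw [← Set.ncard_coe_finset]
    congr 1
    ext y
    rw [Finset.coe_filter, Set.mem_ofPred_eq, SimpleGraph.mem_support]
    constructor
    · rintro ⟨_, z, hz⟩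
      exact ⟨z, (mem_nb G).mp hz⟩
    · rintro ⟨z, hz⟩
      exact ⟨Finset.mem_univ _, z, (mem_nb G).mpr hz⟩
  obtain ⟨f, hf1, hf2⟩ : ∃ f : W → V, Function.Injective f ∧
      ∀ x y, T.Adj x y → G.Adj (f x) (f y) := by
    by_cases hex : ∃ a s, T.Adj a s
    · obtain ⟨a, s, has⟩ := hex
      exact erdos_sos_aux G T hT has (by rw [hsum, hni]; exact h)
    · push Not at hex
      have hsub : Subsingleton W := by
        by_contra hc
        rw [not_subsingleton_iff_nontrivial] at hc
        obtain ⟨x, y, hxy⟩ := hc.exists_pair_ne
        obtain ⟨p⟩ := hT.connected.preconnected x y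
        cases p with
        | nil => exact hxy rfl
        | cons hadj q => exact hex _ _ hadj
      have hV : Nonempty V := by
        by_contra hc
        rw [not_nonempty_iff] at hc
        have h0 : ∑ y : V, (nb G y).card = 0 := by
          rw [Finset.univ_eq_empty, Finset.sum_empty]
        omega
      obtain ⟨v⟩ := hV
      exact ⟨fun _ => v, fun x y _ => Subsingleton.elim x y, fun x y hxy => absurd hxy (hex x y)⟩
  exact ⟨⟨⟨f, fun {x y} hxy => hf2 x y hxy⟩, hf1⟩⟩

open Classical in
/-- **The Erdős–Sós conjecture**: a finite graph `G` on `n` vertices with more than `(t - 2) n / 2`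
edges contains every tree with `t` vertices. -/
theorem erdos_sos {V W : Type*} [Fintype V] [Fintype W] (G : SimpleGraph V) (T : SimpleGraph W)
    (hT : T.IsTree)
    (h : (Fintype.card W - 2) * Fintype.card V < 2 * G.edgeFinset.card) :
    T.IsContained G := by
  refine erdos_sos_support G T hT (lt_of_le_of_lt (Nat.mul_le_mul_left _ ?_) h)
  rw [← Nat.card_eq_fintype_card, ← Set.ncard_univ]
  exact Set.ncard_le_ncard (Set.subset_univ _) Set.finite_univ

end Pool.Agent.Lib.MP_56e41f_co.ES
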