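import Pool.Agent.Lib.MP_56e41f_co.ES.Cnt

/-!
# Growing a tree from an edge, and growing it again from any other edge
-/

open Finset

namespace Pool.Agent.Lib.MP_56e41f_co.ES

variable {W : Type*} [DecidableEq W]

/-- `S` arises from the edge `a s` by adding leaves -/
inductive Grow (T : SimpleGraph W) (a s : W) : Finset W → Prop
  | base (h : T.Adj a s) : Grow T a s {a, s}
  | step (l w : W) (S : Finset W) (h : Grow T a s S) (hl : l ∉ S) (hw : w ∈ S)
      (hadj : T.Adj w l) (hu : ∀ x ∈ S, T.Adj x l → x = w) : Grow T a s (insert l S)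

variable {T : SimpleGraph W} {a s : W} {S : Finset W}

theorem Grow.adj (h : Grow T a s S) : T.Adj a s := by
  induction h with
  | base h => exact h
  | step l w S _ _ _ _ _ ih => exact ih

theorem Grow.left (h : Grow T a s S) : a ∈ S := by
  induction h with
  | base h => simp
  | step l w S _ _ _ _ _ ih => exact Finset.mem_insert_of_mem ih

theorem Grow.right (h : Grow T a s S) : s ∈ S := by
  induction h with
  | base h => simp
  | step l w S _ _ _ _ _ ih => exact Finset.mem_insert_of_mem ih

theorem Grow.nbr (h : Grow T a s S) : ∀ x ∈ S, ∃ y ∈ S, T.Adj x y := by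
  induction h with
  | base h =>
    intro x hx
    rw [Finset.mem_insert, Finset.mem_singleton] at hx
    rcases hx with rfl | rfl
    · exact ⟨s, by simp, h⟩
    · exact ⟨a, by simp, h.symm⟩
  | step l w S hS hl hw hadj hu ih =>
    intro x hx
    rw [Finset.mem_insert] at hx
    rcases hx with rfl | hx
    · exact ⟨w, Finset.mem_insert_of_mem hw, hadj.symm⟩
    · obtain ⟨y, hy, hxy⟩ := ih x hx
      exact ⟨y, Finset.mem_insert_of_mem hy, hxy⟩

theorem Grow.card (h : Grow T a s S) : 2 ≤ S.card := by
  induction h with
  | base h => rw [Finset.card_pair h.ne]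
  | step l w S _ hl _ _ _ ih => rw [Finset.card_insert_of_notMem hl]; omega

/-- growing from the last edge -/
theorem Grow.turn (h : Grow T a s S) : ∀ l : W, l ∉ S → T.Adj s l →
    (∀ x ∈ S, T.Adj x l → x = s) → Grow T s l (insert l S) := by
  induction h with
  | base h =>
    intro l hl hadj hu
    have hla : l ≠ a := fun h => hl (by simp [h])
    have hls : l ≠ s := fun h => hl (by simp [h])
    have h1 : Grow T s l (insert a {s, l}) := by
      refine Grow.step a s {s, l} (Grow.base hadj) ?_ (by simp) h.symm ?_
      · simp only [Finset.mem_insert, Finset.mem_singleton, not_or]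
        exact ⟨h.ne, hla.symm⟩
      · intro x hx hxa
        rw [Finset.mem_insert, Finset.mem_singleton] at hx
        rcases hx with rfl | rfl
        · rfl
        · exact absurd (hu a (by simp) hxa.symm) h.ne
    have h2 : (insert a {s, l} : Finset W) = insert l {a, s} := by
      ext x
      simp only [Finset.mem_insert, Finset.mem_singleton]
      tauto
    rw [← h2]
    exact h1
  | step l' w' S hS hl' hw' hadj' hu' ih =>
    intro l hl hadj hu
    have hll : l ≠ l' := fun h => hl (by simp [h])
    have hlS : l ∉ S := fun h => hl (Finset.mem_insert_of_mem h)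
    have h1 := ih l hlS hadj (fun x hx => hu x (Finset.mem_insert_of_mem hx))
    rw [Finset.insert_comm]
    refine Grow.step l' w' _ h1 ?_ (Finset.mem_insert_of_mem hw') hadj' ?_
    · simp only [Finset.mem_insert, not_or]
      exact ⟨hll.symm, hl'⟩
    · intro x hx hxl
      rw [Finset.mem_insert] at hx
      rcases hx with rfl | hx
      · have h2 := hu l' (Finset.mem_insert_self _ _) hxl.symm
        exact absurd (h2 ▸ hS.right) hl'
      · exact hu' x hx hxl

/-- growing from an edge at a given vertex -/
theorem Grow.reroot (h : Grow T a s S) : ∀ w ∈ S, ∃ x, Grow T x w S := by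
  induction h with
  | base h =>
    intro w hw
    rw [Finset.mem_insert, Finset.mem_singleton] at hw
    rcases hw with rfl | rfl
    · refine ⟨s, ?_⟩
      rw [Finset.pair_comm]
      exact Grow.base h.symm
    · exact ⟨a, Grow.base h⟩
  | step l w' S hS hl hw' hadj hu ih =>
    intro w hw
    rw [Finset.mem_insert] at hw
    rcases hw with rfl | hw
    · obtain ⟨x, hx⟩ := ih w' hw'
      exact ⟨w', hx.turn w hl hadj hu⟩
    · obtain ⟨x, hx⟩ := ih w hw
      exact ⟨x, Grow.step l w' S hx hl hw' hadj hu⟩

theorem Grow.reach (h : Grow T a s S) (l w : W) : l ∉ S → ∀ x ∈ S,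
    (T \ SimpleGraph.fromEdgeSet {s(w, l)}).Reachable a x := by
  induction h with
  | base h =>
    intro hl x hx
    rw [Finset.mem_insert, Finset.mem_singleton] at hx
    rcases hx with rfl | rfl
    · exact SimpleGraph.Reachable.refl _
    · refine SimpleGraph.Adj.reachable ?_
      rw [SimpleGraph.sdiff_adj, SimpleGraph.fromEdgeSet_adj]
      refine ⟨h, fun h2 => ?_⟩
      have h3 := h2.1
      rw [Set.mem_singleton_iff, Sym2.eq_iff] at h3
      rcases h3 with h3 | h3
      · exact hl (by simp [h3.2])
      · exact hl (by simp [h3.1])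
  | step l' w' S hS hl' hw' hadj hu ih =>
    intro hl x hx
    have hlS : l ∉ S := fun h => hl (Finset.mem_insert_of_mem h)
    rw [Finset.mem_insert] at hx
    rcases hx with rfl | hx
    · refine (ih hlS w' hw').trans (SimpleGraph.Adj.reachable ?_)
      rw [SimpleGraph.sdiff_adj, SimpleGraph.fromEdgeSet_adj]
      refine ⟨hadj, fun h2 => ?_⟩
      have h3 := h2.1
      rw [Set.mem_singleton_iff, Sym2.eq_iff] at h3
      rcases h3 with h3 | h3
      · exact hl (by simp [h3.2])
      · exact hlS (h3.1 ▸ hw')
    · exact ih hlS x hx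

/-- a tree grows from every edge -/
theorem grow_univ [Fintype W] (hT : T.IsTree) (h : T.Adj a s) : Grow T a s univ := by
  classical
  have hne : ((univ : Finset (Finset W)).filter (fun S => Grow T a s S)).Nonempty :=
    ⟨{a, s}, by simpa using Grow.base h⟩
  obtain ⟨S, hS, hmax⟩ := Finset.exists_max_image _ (fun S => S.card) hne
  rw [Finset.mem_filter] at hS
  have hG : Grow T a s S := hS.2
  by_contra hcon
  have hSu : S ≠ univ := fun hh => hcon (hh ▸ hG)
  obtain ⟨z, hz⟩ : ∃ z, z ∉ S := by
    by_contra hh
    push Not at hh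
    exact hSu (Finset.eq_univ_iff_forall.mpr hh)
  obtain ⟨p⟩ := hT.connected.preconnected a z
  obtain ⟨d, _, hd1, hd2⟩ := p.exists_boundary_dart (S : Set W) (by exact_mod_cast hG.left)
    (by exact_mod_cast hz)
  have hd1' : d.fst ∈ S := by exact_mod_cast hd1
  have hd2' : d.snd ∉ S := by exact_mod_cast hd2
  have hstep : Grow T a s (insert d.snd S) := by
    refine Grow.step d.snd d.fst S hG hd2' hd1' d.adj (fun x hx hxl => ?_)
    by_contra hne'
    have hb := (SimpleGraph.isAcyclic_iff_forall_adj_isBridge.mp hT.isAcyclic) d.adj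
    rw [SimpleGraph.isBridge_iff] at hb
    refine hb ?_
    refine ((hG.reach d.snd d.fst hd2' d.fst hd1').symm.trans
      (hG.reach d.snd d.fst hd2' x hx)).trans (SimpleGraph.Adj.reachable ?_)
    rw [SimpleGraph.sdiff_adj, SimpleGraph.fromEdgeSet_adj]
    refine ⟨hxl, fun h2 => ?_⟩
    have h3 := h2.1
    rw [Set.mem_singleton_iff, Sym2.eq_iff] at h3
    rcases h3 with h3 | h3
    · exact hne' h3.1
    · exact hd2' (h3.1 ▸ hx)
  have := hmax (insert d.snd S) (by simpa using hstep)
  rw [Finset.card_insert_of_notMem hd2'] at this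
  omega

end Pool.Agent.Lib.MP_56e41f_co.ES
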