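import Pool.Agent.Lib.MP_56e41f_co.ES.Grow

/-!
# Injective homomorphisms of parts of a tree, and the two sums
-/

open Finset

namespace Pool.Agent.Lib.MP_56e41f_co.ES

variable {V W : Type*} [Fintype V] [DecidableEq V] [Fintype W] [DecidableEq W]

open Classical in
/-- neighbours of `x` -/
noncomputable def nb (G : SimpleGraph V) (x : V) : Finset V := univ.filter (fun y => G.Adj x y)

open Classical in
/-- injective homomorphisms of `T[S]` to `G`, with the value `v` outside of `S` -/
noncomputable def Hm (G : SimpleGraph V) (T : SimpleGraph W) (v : V) (S : Finset W) :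
    Finset (W → V) :=
  univ.filter (fun f => (∀ x ∈ S, ∀ y ∈ S, f x = f y → x = y) ∧
    (∀ x ∈ S, ∀ y ∈ S, T.Adj x y → G.Adj (f x) (f y)) ∧ ∀ x, x ∉ S → f x = v)

open Classical in
/-- degree in `T[S]` -/
noncomputable def dS (T : SimpleGraph W) (S : Finset W) (w : W) : ℕ :=
  (S.filter (fun x => T.Adj w x)).card

/-- the searches made by the vertices of `S` -/
noncomputable def LS (G : SimpleGraph V) (T : SimpleGraph W) (S : Finset W) (f : W → V) :
    Multiset (Finset V) :=
  ∑ w ∈ S, (dS T S w - 1) • ({nb G (f w)} : Multiset (Finset V))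

/-- total remaining time -/
noncomputable def Bm (G : SimpleGraph V) (T : SimpleGraph W) (v : V) (S : Finset W) : ℕ :=
  ∑ f ∈ Hm G T v S, cm (univ \ S.image f) (∅ ::ₘ LS G T S f)

/-- total time of the next search at `s` -/
noncomputable def Dm (G : SimpleGraph V) (T : SimpleGraph W) (v : V) (S : Finset W) (s : W) : ℕ :=
  ∑ f ∈ Hm G T v S, cm (univ \ S.image f) (nb G (f s) ::ₘ LS G T S f)

variable (G : SimpleGraph V) (T : SimpleGraph W) (v : V)

omit [DecidableEq V] in
theorem mem_nb {x y : V} : y ∈ nb G x ↔ G.Adj x y := by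
  unfold nb
  simp

theorem mem_Hm {S : Finset W} {f : W → V} : f ∈ Hm G T v S ↔
    (∀ x ∈ S, ∀ y ∈ S, f x = f y → x = y) ∧
    (∀ x ∈ S, ∀ y ∈ S, T.Adj x y → G.Adj (f x) (f y)) ∧ ∀ x, x ∉ S → f x = v := by
  unfold Hm
  simp

theorem sum_ext {S : Finset W} {l w : W} (hl : l ∉ S) (hw : w ∈ S) (hadj : T.Adj w l)
    (hu : ∀ x ∈ S, T.Adj x l → x = w) (F : (W → V) → ℕ) :
    ∑ f ∈ Hm G T v (insert l S), F f =
      ∑ f ∈ Hm G T v S, ∑ u ∈ nb G (f w) \ S.image f, F (Function.update f l u) := by
  have hlw : w ≠ l := fun h => hl (h ▸ hw)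
  rw [Finset.sum_sigma']
  refine Finset.sum_bij' (fun f _ => (⟨Function.update f l v, f l⟩ : Σ _ : W → V, V))
    (fun p _ => Function.update p.1 l p.2) ?_ ?_ ?_ ?_ ?_
  · intro f hf
    rw [mem_Hm] at hf
    obtain ⟨h1, h2, h3⟩ := hf
    have hval : ∀ x ∈ S, Function.update f l v x = f x := by
      intro x hx
      exact Function.update_of_ne (fun h : x = l => hl (h ▸ hx)) _ _
    rw [Finset.mem_sigma, mem_Hm]
    dsimp only
    refine ⟨⟨?_, ?_, ?_⟩, ?_⟩
    · intro x hx y hy hxy
      rw [hval x hx, hval y hy] at hxy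
      exact h1 x (Finset.mem_insert_of_mem hx) y (Finset.mem_insert_of_mem hy) hxy
    · intro x hx y hy hxy
      rw [hval x hx, hval y hy]
      exact h2 x (Finset.mem_insert_of_mem hx) y (Finset.mem_insert_of_mem hy) hxy
    · intro x hx
      by_cases hxl : x = l
      · rw [hxl, Function.update_self]
      · rw [Function.update_of_ne hxl]
        refine h3 x ?_
        rw [Finset.mem_insert, not_or]
        exact ⟨hxl, hx⟩
    · rw [Finset.mem_sdiff, mem_nb]
      refine ⟨?_, ?_⟩
      · show G.Adj (Function.update f l v w) (f l)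
        rw [hval w hw]
        exact h2 w (Finset.mem_insert_of_mem hw) l (Finset.mem_insert_self _ _) hadj
      · intro hc
        rw [Finset.mem_image] at hc
        obtain ⟨x, hx, hxe⟩ := hc
        have hxe' : Function.update f l v x = f l := hxe
        rw [hval x hx] at hxe'
        have := h1 x (Finset.mem_insert_of_mem hx) l (Finset.mem_insert_self _ _) hxe'
        exact hl (this ▸ hx)
  · intro p hp
    rw [Finset.mem_sigma, mem_Hm, Finset.mem_sdiff, mem_nb] at hp
    obtain ⟨⟨h1, h2, h3⟩, h4, h5⟩ := hp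
    have hval : ∀ x ∈ S, Function.update p.1 l p.2 x = p.1 x := by
      intro x hx
      exact Function.update_of_ne (fun h : x = l => hl (h ▸ hx)) _ _
    have h5' : ∀ x ∈ S, p.1 x ≠ p.2 := by
      intro x hx hc
      exact h5 (Finset.mem_image.mpr ⟨x, hx, hc⟩)
    rw [mem_Hm]
    refine ⟨?_, ?_, ?_⟩
    · intro x hx y hy hxy
      rw [Finset.mem_insert] at hx hy
      rcases hx with rfl | hx <;> rcases hy with rfl | hy
      · rfl
      · rw [Function.update_self, hval y hy] at hxy
        exact absurd hxy.symm (h5' y hy)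
      · rw [Function.update_self, hval x hx] at hxy
        exact absurd hxy (h5' x hx)
      · rw [hval x hx, hval y hy] at hxy
        exact h1 x hx y hy hxy
    · intro x hx y hy hxy
      rw [Finset.mem_insert] at hx hy
      rcases hx with rfl | hx <;> rcases hy with rfl | hy
      · exact absurd hxy (SimpleGraph.irrefl T)
      · rw [Function.update_self, hval y hy, hu y hy hxy.symm]
        exact h4.symm
      · rw [Function.update_self, hval x hx, hu x hx hxy]
        exact h4
      · rw [hval x hx, hval y hy]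
        exact h2 x hx y hy hxy
    · intro x hx
      rw [Finset.mem_insert, not_or] at hx
      rw [Function.update_of_ne hx.1]
      exact h3 x hx.2
  · intro f hf
    show Function.update (Function.update f l v) l (f l) = f
    rw [Function.update_idem, Function.update_eq_self]
  · intro p hp
    rw [Finset.mem_sigma, mem_Hm] at hp
    have h3 := hp.1.2.2 l hl
    obtain ⟨f, u⟩ := p
    show (⟨Function.update (Function.update f l u) l v, Function.update f l u l⟩ : Σ _ : W → V, V)
      = ⟨f, u⟩
    rw [Function.update_idem, Function.update_self]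
    have h4 : Function.update f l v = f := by
      have h5 : f l = v := h3
      rw [← h5, Function.update_eq_self]
    rw [h4]
  · intro f hf
    show F f = F (Function.update (Function.update f l v) l (f l))
    rw [Function.update_idem, Function.update_eq_self]

theorem LS_insert {S : Finset W} {l w : W} (hl : l ∉ S) (hw : w ∈ S) (hadj : T.Adj w l)
    (hu : ∀ x ∈ S, T.Adj x l → x = w) (hn : ∀ x ∈ S, ∃ y ∈ S, T.Adj x y) (f : W → V) (u : V) :
    LS G T (insert l S) (Function.update f l u) = nb G (f w) ::ₘ LS G T S f := by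
  classical
  unfold LS
  have hval : ∀ x ∈ S, Function.update f l u x = f x := by
    intro x hx
    exact Function.update_of_ne (fun h : x = l => hl (h ▸ hx)) _ _
  rw [Finset.sum_insert hl]
  have h1 : dS T (insert l S) l = 1 := by
    unfold dS
    rw [Finset.card_eq_one]
    refine ⟨w, ?_⟩
    ext x
    rw [Finset.mem_filter, Finset.mem_insert, Finset.mem_singleton]
    constructor
    · rintro ⟨rfl | hx, h2⟩
      · exact absurd h2 (SimpleGraph.irrefl T)
      · exact hu x hx h2.symm
    · rintro rfl
      exact ⟨Or.inr hw, hadj.symm⟩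
  have h2 : ∀ x ∈ S, dS T (insert l S) x = dS T S x + (if x = w then 1 else 0) := by
    intro x hx
    unfold dS
    rw [Finset.filter_insert]
    by_cases hxw : x = w
    · subst hxw
      rw [if_pos hadj, if_pos rfl, Finset.card_insert_of_notMem]
      intro hc
      exact hl (Finset.mem_filter.mp hc).1
    · rw [if_neg (fun hc => hxw (hu x hx hc)), if_neg hxw, add_zero]
  have h3 : ∀ x ∈ S, 1 ≤ dS T S x := by
    intro x hx
    obtain ⟨y, hy, hxy⟩ := hn x hx
    unfold dS
    exact Finset.card_pos.mpr ⟨y, Finset.mem_filter.mpr ⟨hy, hxy⟩⟩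
  rw [h1, Nat.sub_self, zero_smul, zero_add]
  have h4 : ∀ x ∈ S, (dS T (insert l S) x - 1) •
      ({nb G (Function.update f l u x)} : Multiset (Finset V)) =
      (dS T S x - 1) • ({nb G (f x)} : Multiset (Finset V)) +
      (if x = w then ({nb G (f w)} : Multiset (Finset V)) else 0) := by
    intro x hx
    rw [hval x hx, h2 x hx]
    by_cases hxw : x = w
    · subst hxw
      have := h3 x hx
      rw [if_pos rfl, if_pos rfl, show dS T S x + 1 - 1 = (dS T S x - 1) + 1 by omega, add_smul,
        one_smul]
    · rw [if_neg hxw, if_neg hxw, add_zero, add_zero]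
  rw [Finset.sum_congr rfl h4, Finset.sum_add_distrib, Finset.sum_ite_eq' S w, if_pos hw, add_comm,
    Multiset.singleton_add]

theorem img_insert {S : Finset W} {l : W} (hl : l ∉ S) (f : W → V) (u : V) :
    (univ \ (insert l S).image (Function.update f l u)) = (univ \ S.image f).erase u := by
  rw [Finset.image_insert, Function.update_self]
  have h : S.image (Function.update f l u) = S.image f := by
    refine Finset.image_congr (fun x hx => ?_)
    exact Function.update_of_ne (fun h : x = l => hl (h ▸ (by exact_mod_cast hx))) _ _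
  rw [h, Finset.sdiff_insert]

/-- the balance of a search -/
theorem B_step {S : Finset W} {l w : W} (hl : l ∉ S) (hw : w ∈ S) (hadj : T.Adj w l)
    (hu : ∀ x ∈ S, T.Adj x l → x = w) (hn : ∀ x ∈ S, ∃ y ∈ S, T.Adj x y) :
    Bm G T v S = Dm G T v S w + Bm G T v (insert l S) := by
  unfold Bm Dm
  rw [sum_ext G T v hl hw hadj hu, ← Finset.sum_add_distrib]
  refine Finset.sum_congr rfl (fun f _ => ?_)
  rw [cm_split (univ \ S.image f) (nb G (f w)) (LS G T S f)]
  congr 1
  have h : (univ \ S.image f) ∩ nb G (f w) = nb G (f w) \ S.image f := by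
    ext x
    simp only [Finset.mem_inter, Finset.mem_sdiff, Finset.mem_univ, true_and]
    tauto
  rw [h]
  refine Finset.sum_congr rfl (fun u _ => ?_)
  rw [LS_insert G T hl hw hadj hu hn, img_insert hl, Multiset.cons_swap]

/-- leaves can be removed -/
theorem D_step {S : Finset W} {l w : W} (hl : l ∉ S) (hw : w ∈ S) (hadj : T.Adj w l)
    (hu : ∀ x ∈ S, T.Adj x l → x = w) (hn : ∀ x ∈ S, ∃ y ∈ S, T.Adj x y) {s : W} (hs : s ∈ S) :
    Dm G T v (insert l S) s ≤ Dm G T v S s := by
  unfold Dm
  rw [sum_ext G T v hl hw hadj hu]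
  refine Finset.sum_le_sum (fun f _ => ?_)
  have h : (univ \ S.image f) ∩ nb G (f w) = nb G (f w) \ S.image f := by
    ext x
    simp only [Finset.mem_inter, Finset.mem_sdiff, Finset.mem_univ, true_and]
    tauto
  have hsl : s ≠ l := fun h => hl (h ▸ hs)
  refine le_trans (le_of_eq ?_) (cm_search (nb G (f w)) (nb G (f s) ::ₘ LS G T S f)
    (univ \ S.image f))
  rw [h]
  refine Finset.sum_congr rfl (fun u _ => ?_)
  rw [LS_insert G T hl hw hadj hu hn, img_insert hl, Multiset.cons_swap,
    Function.update_of_ne hsl]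

end Pool.Agent.Lib.MP_56e41f_co.ES
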