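import Pool.Agent.Lib.MP_56e41f_co.ES.Hom

/-!
# The Erdős–Sós conjecture
-/

open Finset

namespace Pool.Agent.Lib.MP_56e41f_co.ES

variable {V W : Type*} [Fintype V] [DecidableEq V] [Fintype W] [DecidableEq W]

variable (G : SimpleGraph V) (T : SimpleGraph W) (v : V)

theorem LS_pair {a s : W} (h : T.Adj a s) (f : W → V) : LS G T {a, s} f = 0 := by
  classical
  unfold LS
  have hd : ∀ w ∈ ({a, s} : Finset W), dS T {a, s} w = 1 := by
    intro w hw
    unfold dS
    rw [Finset.card_eq_one]
    rw [Finset.mem_insert, Finset.mem_singleton] at hw
    rcases hw with rfl | rfl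
    · refine ⟨s, ?_⟩
      ext x
      simp only [Finset.mem_filter, Finset.mem_insert, Finset.mem_singleton]
      constructor
      · rintro ⟨rfl | hx, h2⟩
        · exact absurd h2 (SimpleGraph.irrefl T)
        · exact hx
      · rintro rfl
        exact ⟨Or.inr rfl, h⟩
    · refine ⟨a, ?_⟩
      ext x
      simp only [Finset.mem_filter, Finset.mem_insert, Finset.mem_singleton]
      constructor
      · rintro ⟨hx | rfl, h2⟩
        · exact hx
        · exact absurd h2 (SimpleGraph.irrefl T)
      · rintro rfl
        exact ⟨Or.inl rfl, h.symm⟩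
  refine Finset.sum_eq_zero (fun w hw => ?_)
  rw [hd w hw, Nat.sub_self, zero_smul]

theorem sum_single (s : W) (F : (W → V) → ℕ) :
    ∑ f ∈ Hm G T v {s}, F f = ∑ y : V, F (Function.update (fun _ => v) s y) := by
  refine Finset.sum_bij' (fun f _ => f s) (fun y _ => Function.update (fun _ => v) s y) ?_ ?_ ?_ ?_ ?_
  · intro f _
    exact Finset.mem_univ _
  · intro y _
    rw [mem_Hm]
    refine ⟨?_, ?_, ?_⟩
    · intro x hx z hz _
      rw [Finset.mem_singleton] at hx hz
      rw [hx, hz]
    · intro x hx z hz hxz
      rw [Finset.mem_singleton] at hx hz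
      rw [hx, hz] at hxz
      exact absurd hxz (SimpleGraph.irrefl T)
    · intro x hx
      rw [Finset.mem_singleton] at hx
      rw [Function.update_of_ne hx]
  · intro f hf
    rw [mem_Hm] at hf
    funext x
    by_cases hx : x = s
    · rw [hx, Function.update_self]
    · rw [Function.update_of_ne hx, hf.2.2 x (by rwa [Finset.mem_singleton])]
  · intro y _
    rw [Function.update_self]
  · intro f hf
    rw [mem_Hm] at hf
    congr 1
    funext x
    by_cases hx : x = s
    · rw [hx, Function.update_self]
    · rw [Function.update_of_ne hx, hf.2.2 x (by rwa [Finset.mem_singleton])]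

theorem sum_pair {a s : W} (h : T.Adj a s) (F : (W → V) → ℕ) :
    ∑ f ∈ Hm G T v {a, s}, F f = ∑ y : V, ∑ x ∈ nb G y,
      F (Function.update (Function.update (fun _ => v) s y) a x) := by
  have h1 := sum_ext G T v (S := {s}) (l := a) (w := s)
    (by rw [Finset.mem_singleton]; exact h.ne) (Finset.mem_singleton_self s) h.symm
    (fun x hx _ => Finset.mem_singleton.mp hx) F
  rw [h1, sum_single]
  refine Finset.sum_congr rfl (fun y _ => ?_)
  rw [Function.update_self]
  refine Finset.sum_congr ?_ (fun x _ => rfl)
  rw [Finset.image_singleton, Function.update_self]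
  rw [Finset.sdiff_singleton_eq_erase]
  refine Finset.erase_eq_of_notMem ?_
  rw [mem_nb]
  exact SimpleGraph.irrefl G

theorem img_pair {a s : W} (h : T.Adj a s) (x y : V) :
    (({a, s} : Finset W).image (Function.update (Function.update (fun _ => v) s y) a x))
      = {x, y} := by
  rw [Finset.image_insert, Finset.image_singleton, Function.update_self,
    Function.update_of_ne h.ne.symm, Function.update_self]

theorem card_pair_compl {x y : V} (h : x ≠ y) :
    ((univ : Finset V) \ {x, y}).card + 1 = Fintype.card V - 1 := by
  have h1 : ({x, y} : Finset V).card = 2 := Finset.card_pair h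
  have h2 := Finset.card_sdiff_add_card_eq_card (Finset.subset_univ ({x, y} : Finset V))
  rw [h1, Finset.card_univ] at h2
  omega

/-- the total time at the start -/
theorem B_pair {a s : W} (h : T.Adj a s) :
    Bm G T v {a, s} = (∑ y : V, (nb G y).card) * (Fintype.card V - 1).factorial := by
  unfold Bm
  rw [sum_pair G T v h, Finset.sum_mul]
  refine Finset.sum_congr rfl (fun y _ => ?_)
  rw [← smul_eq_mul, ← Finset.sum_const]
  refine Finset.sum_congr rfl (fun x hx => ?_)
  rw [mem_nb] at hx
  rw [LS_pair G T h, img_pair T v h]
  have h1 := cm_single' ∅ ((univ : Finset V) \ {x, y})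
  rw [Finset.inter_empty, Finset.card_empty, zero_add, one_mul, card_pair_compl hx.ne.symm] at h1
  exact h1

open Classical in
/-- number of vertices which are not isolated -/
noncomputable def ni (G : SimpleGraph V) : ℕ := (univ.filter (fun y => (nb G y).Nonempty)).card

/-- the time of a search just after the start -/
theorem D_pair {a s : W} (h : T.Adj a s) :
    Dm G T v {a, s} s ≤ ni G * (Fintype.card V - 1).factorial := by
  classical
  unfold Dm ni
  rw [sum_pair G T v h]
  calc ∑ y : V, ∑ x ∈ nb G y, _ ≤ ∑ y : V, (if (nb G y).Nonempty then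
          (Fintype.card V - 1).factorial else 0) := by
        refine Finset.sum_le_sum (fun y _ => ?_)
        rcases Nat.eq_zero_or_pos (nb G y).card with h0 | h0
        · rw [Finset.card_eq_zero.mp h0, Finset.sum_empty]
          exact Nat.zero_le _
        · rw [if_pos (Finset.card_pos.mp h0)]
          refine Nat.le_of_mul_le_mul_left ?_ h0
          rw [Finset.mul_sum]
          calc ∑ x ∈ nb G y, (nb G y).card * _
              = ∑ x ∈ nb G y, (Fintype.card V - 1).factorial := by
                refine Finset.sum_congr rfl (fun x hx => ?_)
                rw [LS_pair G T h, img_pair T v h, Function.update_of_ne h.ne.symm,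
                  Function.update_self]
                have hxy : G.Adj y x := (mem_nb G).mp hx
                have h1 := cm_single' (nb G y) ((univ : Finset V) \ {x, y})
                rw [card_pair_compl hxy.ne.symm] at h1
                rw [← h1]
                have h2 : (((univ : Finset V) \ {x, y}) ∩ nb G y) = (nb G y).erase x := by
                  ext z
                  rw [Finset.mem_inter, Finset.mem_sdiff, Finset.mem_erase, Finset.mem_insert,
                    Finset.mem_singleton]
                  constructor
                  · rintro ⟨⟨_, h3⟩, h4⟩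
                    exact ⟨fun h5 => h3 (Or.inl h5), h4⟩
                  · rintro ⟨h3, h4⟩
                    refine ⟨⟨Finset.mem_univ _, ?_⟩, h4⟩
                    rintro (h5 | h5)
                    · exact h3 h5
                    · rw [h5, mem_nb] at h4
                      exact SimpleGraph.irrefl G h4
                rw [h2, Finset.card_erase_add_one hx]
                rfl
            _ = (nb G y).card * (Fintype.card V - 1).factorial := by
                rw [Finset.sum_const, smul_eq_mul]
            _ ≤ _ := le_rfl
    _ = _ := by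
        rw [← Finset.sum_filter, Finset.sum_const, smul_eq_mul]

theorem D_grow {a s : W} {S : Finset W} (h : Grow T a s S) :
    Dm G T v S s ≤ ni G * (Fintype.card V - 1).factorial := by
  induction h with
  | base h => exact D_pair G T v h
  | step l w S hS hl hw hadj hu ih =>
    exact le_trans (D_step G T v hl hw hadj hu hS.nbr hS.right) ih

theorem B_grow {a s : W} {S : Finset W} (h : Grow T a s S) :
    (∑ y : V, (nb G y).card) * (Fintype.card V - 1).factorial ≤
      Bm G T v S + (S.card - 2) * (ni G * (Fintype.card V - 1).factorial) := by
  induction h with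
  | base h => rw [B_pair G T v h]; exact Nat.le_add_right _ _
  | step l w S hS hl hw hadj hu ih =>
    obtain ⟨x, hx⟩ := hS.reroot w hw
    have h1 := D_grow G T v hx
    have h2 := B_step G T v hl hw hadj hu hS.nbr
    have h3 : (insert l S).card - 2 = (S.card - 2) + 1 := by
      have := hS.card
      rw [Finset.card_insert_of_notMem hl]
      omega
    rw [h3, Nat.add_mul, one_mul]
    omega

/-- **The Erdős–Sós conjecture** for a tree with an edge. -/
theorem erdos_sos_aux (hT : T.IsTree) {a s : W} (has : T.Adj a s)
    (h : (Fintype.card W - 2) * ni G < ∑ y : V, (nb G y).card) :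
    ∃ f : W → V, Function.Injective f ∧ ∀ x y, T.Adj x y → G.Adj (f x) (f y) := by
  have hV : Nonempty V := by
    by_contra hc
    rw [not_nonempty_iff] at hc
    rw [Finset.univ_eq_empty, Finset.sum_empty] at h
    omega
  obtain ⟨v⟩ := hV
  have h1 := B_grow G T v (grow_univ hT has)
  rw [Finset.card_univ] at h1
  have hpos : 0 < (Fintype.card V - 1).factorial := Nat.factorial_pos _
  have h2 : 0 < Bm G T v univ := by
    by_contra hc
    have hc0 : Bm G T v univ = 0 := by omega
    rw [hc0, zero_add, ← mul_assoc] at h1
    have := Nat.le_of_mul_le_mul_right h1 hpos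
    omega
  unfold Bm at h2
  obtain ⟨f, hf, _⟩ := Finset.exists_ne_zero_of_sum_ne_zero (Nat.pos_iff_ne_zero.mp h2)
  rw [mem_Hm] at hf
  exact ⟨f, fun x y hxy => hf.1 x (Finset.mem_univ _) y (Finset.mem_univ _) hxy,
    fun x y hxy => hf.2.1 x (Finset.mem_univ _) y (Finset.mem_univ _) hxy⟩

end Pool.Agent.Lib.MP_56e41f_co.ES
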